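import Pool.Agent.MP_815c6c_an.W.YA

/-! The law for small `P`. -/

set_option autoImplicit false

namespace Pool.Agent.MP_815c6c_an.W.Y35

open AA KB

def law : Law :=
  ⟨⟨29926, 31533, 30804, 34698, 33465, 32288⟩,
   ⟨32740, 34032, 30636, 33862, 33986, 31546⟩,
   ⟨31524, 34611, 31626, 31285, 35174, 31666⟩,
   ⟨32067, 34007, 34360, 28554, 35322, 32657⟩,
   ⟨32266, 31131, 37026, 30478, 32247, 33399⟩,
   ⟨33912, 29893, 33847, 33704, 31298, 33037⟩⟩

end Pool.Agent.MP_815c6c_an.W.Y35
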